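import Pool.Agent.N435.Cross

/-!
# Poonen's strict inequality for families with many disjoint members crossed by few generators

Let `A` be a union-closed family and let `P` be a system of pairwise disjoint nonempty members. A
union-irreducible member crosses `p ∈ P` if it meets `p` and does not contain it. Suppose that no
`p ∈ P` splits off from `A` (that is, there is a member meeting `p` without containing it, or a member
`S ⊇ p` such that `S \ p` is neither a member nor empty). If `∑ (1 - 2 ^ (-d k)) < |P|`, the sum over
the irreducible members `k` crossing a set of `P`, where `d k` is the number of the sets of `P` crossed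
by `k`, then some element of a set in `P` lies in strictly more than half of the members of `A`. In
particular this holds if `P` is not empty and at most `|P|` irreducible members cross a set of `P`, or
if less than `2 |P|` do and each of them crosses only one; here `2 |P|` is best possible. In a
separating family which is not a power set the sets which split off are singletons and only
contribute a direct factor that is a power set. (By helper435; the first version, with less than
`|P| / 15` crossing members, is due to helper188.)

Proof. For `p ∈ P` let `η p` be the number of the members not containing `p` minus the number of the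
different sets `S ∪ p` they give. If the elements of `p` lie in at most half of the members, then
`η p ≥ 2 a + v`, where `a` is the number of the members containing a given `y ∈ p` but not `p` and `v`
is the number of the members `M ⊇ p` that are not of the form `S ∪ p`, `p ⊄ S`. Order `P` by `η`. For a
set `M = S ∪ p` and an irreducible `k ⊆ M` crossing `p` charge the sets `S` containing `k` if `p` is the
first set crossed by `k` and not contained in `S`, and the sets `S` not containing `k` otherwise; then
at most one `S` stays uncharged, so that at least `η p` pairs `(S, p)` are charged for `p`. A set `S`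
is charged at most once for each `k`, and if `q` is the first set crossed by `k` and not contained in
`S`, then `S` contains a given element of `k ∩ q`, and `η q ≤ η p`. By induction along the order the
weights `1 / η q` of these `S` have a sum of at most `1 / 2 + 1 / 4 + ... = 1 - 2 ^ (-d k)` for each `k`.
So if each `p ∈ P` is crossed, then `|P| ≤ ∑ (1 - 2 ^ (-d k))`. Hence some `p ∈ P` is crossed by no
irreducible member, and as its elements lie in exactly half of the members, `p` can be removed from
every member containing it.
-/

set_option autoImplicit false

namespace Pool.Agent.Results.MP_75f39d_co.CrossingMembers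

open Finset

open scoped Classical in
/-- The union-irreducible members of `A`: the nonempty members which are not the union of two
members different from them. -/
noncomputable def irr {α : Type*} [DecidableEq α] (A : Finset (Finset α)) : Finset (Finset α) :=
  A.filter (fun q => q.Nonempty ∧ ∀ X ∈ A, ∀ Y ∈ A, X ∪ Y = q → X = q ∨ Y = q)

open scoped Classical in
/-- The union-irreducible members of `A` which cross some `p ∈ P`, that is meet `p` and do not
contain it. -/
noncomputable def crossing {α : Type*} [DecidableEq α] (A P : Finset (Finset α)) :
    Finset (Finset α) :=
  (irr A).filter (fun k => ∃ p ∈ P, ¬ Disjoint p k ∧ ¬ p ⊆ k)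

/-- The sets of `P` crossed by `k`. -/
def crossed {α : Type*} [DecidableEq α] (P : Finset (Finset α)) (k : Finset α) :
    Finset (Finset α) :=
  P.filter (fun p => ¬ Disjoint p k ∧ ¬ p ⊆ k)

/-- `p` splits off from `A`: every member is disjoint from `p` or contains `p`, and `p` can be
removed from the members containing it (the result being a member or empty). -/
def SplitsOff {α : Type*} [DecidableEq α] (A : Finset (Finset α)) (p : Finset α) : Prop :=
  ∀ S ∈ A, Disjoint p S ∨ (p ⊆ S ∧ (S \ p ∈ A ∨ S \ p = ∅))

/-- Let `A` be a finite union-closed family and `P` a system of pairwise disjoint nonempty members,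
none of which splits off from `A`. If the sum of `1 - 2 ^ (-d k)` over all union-irreducible members
`k` crossing some `p ∈ P` is less than `|P|`, where `k` crosses `d k` sets of `P`, then some element of
a set in `P` lies in strictly more than half of the members of `A`. -/
theorem result {α : Type*} [DecidableEq α] (A P : Finset (Finset α))
    (hunion : ∀ X ∈ A, ∀ Y ∈ A, X ∪ Y ∈ A) (hP : P ⊆ A)
    (hne : ∀ p ∈ P, p.Nonempty) (hdisj : ∀ p ∈ P, ∀ q ∈ P, p ≠ q → Disjoint p q)
    (hsplit : ∀ p ∈ P, ¬ SplitsOff A p)
    (hcard : ∑ k ∈ crossing A P, (1 - (1 / 2 : ℝ) ^ (crossed P k).card) < (P.card : ℝ)) :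
    ∃ p ∈ P, ∃ x ∈ p, A.card < 2 * (A.filter (fun S => x ∈ S)).card := by
  classical
  by_contra hcon
  push Not at hcon
  have hirrdef : ∀ q, q ∈ irr A ↔
      q ∈ A ∧ q.Nonempty ∧ ∀ X ∈ A, ∀ Y ∈ A, X ∪ Y = q → X = q ∨ Y = q := by
    intro q
    unfold irr
    rw [mem_filter]
  have H : ∀ p ∈ P, ∀ y ∈ p, 2 * (A.filter (fun S => y ∈ S)).card ≤ (insert ∅ A).card :=
    fun p hp y hy => (hcon p hp y hy).trans (card_le_card (subset_insert _ _))
  obtain ⟨p, hp, hu⟩ := Pool.Agent.N435.One.untouched_weighted A (irr A) P hunion rfl hP hne hdisj
    (by
      unfold crossing crossed at hcard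
      convert hcard) H
  have h0 : ∀ q ∈ irr A, Disjoint p q ∨ p ⊆ q := fun q hq => hu q (mem_union_left _ hq)
  obtain ⟨y, hy⟩ := hne p hp
  have h2 := (Pool.Agent.N435.untouched
    (Pool.Agent.N435.sys_irr A (irr A) P hunion rfl hP hne hdisj) hp hu hy).2
    (by
      rw [Pool.Agent.N435.filter_insert_empty]
      exact H p hp y hy)
  apply hsplit p hp
  intro S hS
  by_cases hd : Disjoint p S
  · exact Or.inl hd
  · right
    obtain ⟨x, hxp, hxS⟩ := not_disjoint_iff.1 hd
    obtain ⟨q, hq, hq', hxq, hqS⟩ := Pool.Agent.N435.irr_gen A S hS x hxS
    have hpS : p ⊆ S := by
      rcases h0 q ((hirrdef q).2 ⟨hq, hq'⟩) with h | h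
      · exact absurd hxq (Finset.disjoint_left.1 h hxp)
      · exact h.trans hqS
    refine ⟨hpS, ?_⟩
    rcases mem_insert.1 (h2 S (mem_insert_of_mem hS) hpS) with h | h
    · exact Or.inr h
    · exact Or.inl h

end Pool.Agent.Results.MP_75f39d_co.CrossingMembers
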