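import Pool.Agent.N361.DC.Strict
import Pool.Agent.N521.DC.Inner
import Pool.Agent.N999.DC.Core
import Pool.Agent.N849.DC.Mono
import Pool.Agent.N407.DC.Flow
import Pool.Agent.N134.DC.Num
import Pool.Agent.N87.DC.Conf

/-!
# Poonen's strict inequality for families containing a design, or a family of large degree and small
codegree

Let `F` be a finite union-closed family, `N` a finite set of points and `K` a set of members of `F`
that are subsets of `N`; nothing is assumed about the other members of `F` and the other elements.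
If the degrees of `K` on `N` are large compared with the codegrees, then some point of `N` lies in
strictly more than half of the members of `F`, unless `F` is closed under adding and removing elements
of `N` (so that `F` is the product of the power set of `N` and a family on the other elements, and
every point of `N` lies in exactly half of the members).

Proof. Let `L` be a part of `F` with a given trace outside `N`, as a family of subsets of `N`. The
number `up` of edges `(R, R + i)` of the cube with `R ∈ L`, `R + i ∉ L` is at most `down / s`, `s > 1`,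
where `down` is the number of edges `(S, S + j)` with `S ∉ L`, `S + j ∈ L` (random paths from `R + i` to
`R ∪ A`, `i ∈ A ∈ K`; see the file on the union-closed sets conjecture). So `down > up` unless both
are zero and `L` is empty or the whole cube.
-/

namespace Pool.Agent.Results.MP_75f39d_co.DegreeCodegree

open Finset

/-- The finite family `F` of finite sets is union-closed. -/
def UnionClosed (F : Finset (Finset ℕ)) : Prop := ∀ A ∈ F, ∀ B ∈ F, A ∪ B ∈ F

/-- Some element of `N` lies in strictly more than half of the members of `F`. -/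
def StrictOn (F : Finset (Finset ℕ)) (N : Finset ℕ) : Prop :=
  ∃ x ∈ N, F.card < 2 * (F.filter (fun A => x ∈ A)).card

/-- `F` is closed under adding and removing elements of `N`. -/
def FreeOn (F : Finset (Finset ℕ)) (N : Finset ℕ) : Prop :=
  ∀ S ∈ F, ∀ R ⊆ N, (S \ N) ∪ R ∈ F

open Classical in
theorem result :
    -- (1) the criterion
    (∀ (F K : Finset (Finset ℕ)) (N : Finset ℕ) (w : Finset ℕ → ℚ), UnionClosed F → K ⊆ F →
      N.Nonempty → (∀ A ∈ K, A ⊆ N ∧ 0 ≤ w A) →
      (∀ x ∈ N, 1 < ∑ A ∈ K.filter (fun A => x ∈ A), w A) →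
      (∀ x ∈ N, ∀ y ∈ N, x ≠ y → ∑ A ∈ K.filter (fun A => x ∈ A ∧ y ∈ A),
        w A * ((2 ^ (A.card - 1) - 1) / ((A.card : ℚ) - 1)) ≤ 1) →
      StrictOn F N ∨ FreeOn F N) ∧
    -- (2) pairwise balanced designs
    (∀ (F K : Finset (Finset ℕ)) (N : Finset ℕ) (l : ℕ), UnionClosed F → K ⊆ F →
      2 ≤ N.card → 1 ≤ l → (∀ A ∈ K, A ⊆ N ∧ 2 ^ (A.card - 1) < N.card) →
      (∀ x ∈ N, ∀ y ∈ N, x ≠ y → (K.filter (fun A => x ∈ A ∧ y ∈ A)).card = l) →
      StrictOn F N ∨ FreeOn F N) ∧
    -- (3) uniform families with given size and codegrees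
    (∀ (F K : Finset (Finset ℕ)) (N : Finset ℕ) (k l : ℕ), UnionClosed F → K ⊆ F →
      N.Nonempty → 2 ≤ k → 1 ≤ l → (∀ A ∈ K, A ⊆ N ∧ A.card = k) →
      (∀ x ∈ N, ∀ y ∈ N, x ≠ y → (K.filter (fun A => x ∈ A ∧ y ∈ A)).card ≤ l) →
      l * (2 ^ (k - 1) - 1) * N.card < (k - 1) * K.card →
      ∃ M ⊆ N, M.Nonempty ∧ (StrictOn F M ∨ FreeOn F M)) ∧
    -- (4) almost all families of `m` sets of size `k`
    (∀ k : ℕ, 3 ≤ k → ∃ C : ℕ, ∀ n m : ℕ, 2 ^ (k - 1) * n ≤ (k - 1) * m →
      n * ((powersetCard m (powersetCard k (range n))).filter (fun B =>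
        ¬ ∀ F : Finset (Finset ℕ), UnionClosed F → B ⊆ F →
          StrictOn F (range n) ∨ ∃ M ⊆ range n, M.Nonempty ∧ FreeOn F M)).card ≤
        C * (powersetCard m (powersetCard k (range n))).card) := by
  have hflow := Pool.Agent.N407.DC.flow
  have hinner := Pool.Agent.N521.DC.inner Pool.Agent.N134.DC.num
  have hcore := Pool.Agent.N999.DC.core
  refine ⟨?_, ?_, ?_, ?_⟩
  · intro F K N w hF hKF hN hK h1 h2
    refine Pool.Agent.N361.DC.strict_gt hflow hinner hF hN hKF
      (fun A hA => (hK A hA).1) (fun A hA => (hK A hA).2) h1 ?_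
    intro x hx y hy hxy
    refine le_trans (le_of_eq ?_) (h2 x hx y hy hxy)
    refine sum_congr rfl fun A hA => ?_
    rw [mem_filter] at hA
    have h3 : 1 ≤ A.card := card_pos.2 ⟨x, hA.2.1⟩
    unfold Pool.Agent.N361.DC.psi
    rw [Nat.cast_sub h3, Nat.cast_one]
  · intro F K N l hF hKF hN hl0 hK hl
    exact Pool.Agent.N361.DC.pbd_strict hflow hinner hF hKF (fun A hA => (hK A hA).1) hl0 hN hl
      (fun A hA => (hK A hA).2)
  · intro F K N k l hF hKF hN hk hl0 hK hl hm
    exact Pool.Agent.N361.DC.codeg_strict hflow hinner hcore hF hN hKF hk hl0 hK hl hm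
  · intro k hk
    obtain ⟨C, hC⟩ := Pool.Agent.N361.DC.almost_strict hflow hinner hcore
      Pool.Agent.N849.DC.mono Pool.Agent.N87.DC.conf_avg k hk
    refine ⟨C, ?_⟩
    intro n m hnm
    refine le_trans (Nat.mul_le_mul_left _ (card_le_card ?_)) (hC n m hnm)
    intro B hB
    rw [mem_filter] at hB ⊢
    refine ⟨hB.1, ?_⟩
    have h := hB.2
    push Not at h
    obtain ⟨F, hF, hBF, hx, hM⟩ := h
    refine ⟨F, hF, hBF, fun x hxn => ?_, hM⟩
    unfold StrictOn at hx
    push Not at hx
    exact hx x hxn

end Pool.Agent.Results.MP_75f39d_co.DegreeCodegree
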