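import Pool.Agent.N188.FC.Main
import Pool.Agent.N188.FC.Strict

set_option autoImplicit false

/-!
# Poonen's strict inequality: a criterion for the members inside a set

Let `F` be a finite union-closed family, `S` a finite set, `n = |S|`; nothing is assumed about the
elements outside `S`. We say that the elements of `S` are free if `A ∪ B` and `A \ B` are members of `F`
for all `A ∈ F` and `B ⊆ S`, so that `F` is the product of the power set of `S` and a union-closed
family on the other elements (for which Poonen's question is equivalent to the question for `F`). Let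
`G` be a family of subsets of `S` with `A ∪ B ∈ F` for all `A ∈ F`, `B ∈ G`, for instance
`G = {A ∈ F : A ⊆ S}`.

1. (Criterion.) For `x ∈ S` call a nonempty family `𝒟` of subsets of `S \ {x}` admissible at `x` if it
   is closed under taking subsets and has no member `D` such that `D ∪ {x}` contains a member of `G`
   containing `x`. If there are weights `c` which are positive on `S` such that for all `x ∈ S` and all
   `𝒟` admissible at `x` the sum of `c k` over the edges `(D, D ∪ {k})` of the cube leaving `𝒟` is larger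
   than `c x |𝒟|`, then the average weight of `A ∩ S` over `A ∈ F` is larger than half of the weight of
   `S` (so some element of `S` lies in strictly more than half of the members of `F`), or the elements of
   `S` are free.
2. (All `k`-subsets.) If `G` contains all `k`-subsets of `S` and
   `∑ i < k - 1, C(n - 1, i) < (k - 1) C(n - 1, k - 1)`, this holds with `c = 1`. (If the opposite strict
   inequality holds, then some union-closed families containing all `k`-subsets of `S` have all elements
   of `S` in less than half of their members, see `MP_9bc572_co.FCCharacterization`.)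
3. (Density.) If `G` contains at least `2 ^ (n - 1)` nonempty sets, then some element of `S` lies in
   strictly more than half of the members of `F`, or the elements of `S` are free.

Proof. Let `K` be a part of `F` with a given trace outside `S`, `D_w` the number of the edges
`(A, A ∪ {w})` of the cube with `A ∈ K`, `A ∪ {w} ∉ K`, and `U_w` the number of those with `A ∉ K`,
`A ∪ {w} ∈ K`. There is some `l > 1` such that the hypothesis in 1 holds with `≥ l c x |𝒟|`, and then
`∑ c_w U_w ≥ l ∑ c_w D_w` (`boundary_w`, see `MP_9bc572_co.FCCharacterization`). So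
`∑ c_w U_w > ∑ c_w D_w` unless all `D_w` and `U_w` are zero, and then `K` is empty or the power set of `S`.
For 2 see `small_members_lt`. For 3 one uses `U ≥ ∑ 2 μ_w D_w` if the fraction `μ_w` of the sets `Z` with
`w ∈ Z ⊆ S` contains a member of `G` containing `w` (`boundary_ineq`), and removes from `S` the elements
`w` contained in at most `2 ^ (n - 2)` of the members of `G`, one after another.
-/

namespace Pool.Agent.Results.MP_75f39d_co.DenseInside

open Finset

theorem result {α : Type*} [DecidableEq α] (F G : Finset (Finset α)) (S : Finset α)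
    (hF : ∀ A ∈ F, ∀ B ∈ F, A ∪ B ∈ F) (hG : ∀ B ∈ G, B ⊆ S)
    (hFG : ∀ A ∈ F, ∀ B ∈ G, A ∪ B ∈ F) :
    (∀ c : α → ℝ, (∀ x, 0 ≤ c x) → (∀ x ∈ S, 0 < c x) →
      (∀ x ∈ S, ∀ 𝒟 : Finset (Finset α), 𝒟.Nonempty → (∀ D ∈ 𝒟, D ⊆ S.erase x) →
        (∀ D ∈ 𝒟, ∀ D' ⊆ D, D' ∈ 𝒟) →
        (∀ D ∈ 𝒟, ∀ B ∈ G, x ∈ B → ¬ B ⊆ insert x D) →
        c x * 𝒟.card <
          ∑ D ∈ 𝒟, ∑ k ∈ (S.erase x).filter (fun k => k ∉ D ∧ insert k D ∉ 𝒟), c k) →
      F.card * ∑ x ∈ S, c x < 2 * ∑ A ∈ F, ∑ x ∈ A ∩ S, c x ∨
        (∀ A ∈ F, ∀ B, B ⊆ S → A ∪ B ∈ F ∧ A \ B ∈ F)) ∧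
    (∀ k : ℕ, (∀ A ⊆ S, A.card = k → A ∈ G) →
      ∑ i ∈ range (k - 1), (S.card - 1).choose i < (k - 1) * (S.card - 1).choose (k - 1) →
      F.card * S.card < 2 * ∑ A ∈ F, (A ∩ S).card ∨
        (∀ A ∈ F, ∀ B, B ⊆ S → A ∪ B ∈ F ∧ A \ B ∈ F)) ∧
    (2 ^ S.card ≤ 2 * (G.filter (fun B => B.Nonempty)).card →
      (∃ x ∈ S, F.card < 2 * (F.filter (fun A => x ∈ A)).card) ∨
        (∀ A ∈ F, ∀ B, B ⊆ S → A ∪ B ∈ F ∧ A \ B ∈ F)) := by
  classical
  refine ⟨?_, ?_, ?_⟩
  · intro c hc0 hcS h
    refine Pool.Agent.N188.FC.strict_of_weights hF hG hFG hc0 hcS ?_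
    intro x hx 𝒟 hv hne
    have := h x hx 𝒟 hne hv.1 hv.2.1 hv.2.2
    convert this
  · intro k hk hcond
    exact Pool.Agent.N188.FC.uniform_lt hF hG hFG hk hcond
  · intro h
    refine Pool.Agent.N188.FC.density_lt hF S.card S (insert ∅ (G.filter (fun B => B.Nonempty)))
      rfl ?_ ?_ ?_
    · intro B hB
      rcases mem_insert.1 hB with rfl | hB
      · exact empty_subset _
      · exact hG B (mem_filter.1 hB).1
    · intro A hA B hB
      rcases mem_insert.1 hB with rfl | hB
      · simpa using hA
      · exact hFG A hA B (mem_filter.1 hB).1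
    · rw [card_insert_of_notMem (by simp)]
      omega

end Pool.Agent.Results.MP_75f39d_co.DenseInside
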