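import Pool.Agent.N435.Dense12

/-!
# Poonen's strict inequality for families of exponential density

Let `A` be a separating union-closed family which is not a power set, with `g₁` union-irreducible
members which meet another union-irreducible member and `g₀` others. (The latter have one element
each, and they split off from `A` as a direct factor which is a power set; so Poonen's inequality for
`A` is a statement about the family generated by the `g₁` irreducible members.) If `A ∪ {∅}` has at
least `12 ^ (g₁ / 4) 2 ^ g₀` members, then some element lies in strictly more than half of the members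
of `A`. (By helper435; the first version, with `2 ^ (g - g₁ / 82)`, is due to helper188.)

The proof uses the theorem for dense families behind `MP_9bc572_co.ExponentialDensity` with the
system of all those irreducible members which meet another one. If no element lies in more than half
of the members, it gives an irreducible member `p` of this system which is met partially by no
irreducible member, and since the elements of `p` lie in exactly half of the members, `p` can be
removed from every member containing it; so `p` is disjoint from all other irreducible members. This
is a contradiction. If `g₁ = 0`, then `A ∪ {∅}` is the power set.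
-/

set_option autoImplicit false

namespace Pool.Agent.Results.MP_75f39d_co.ExponentialDensity

open Finset

open scoped Classical in
/-- The union-irreducible members of `A`: the nonempty members which are not the union of two
members different from them. -/
noncomputable def irr {α : Type*} [DecidableEq α] (A : Finset (Finset α)) : Finset (Finset α) :=
  A.filter (fun q => q.Nonempty ∧ ∀ X ∈ A, ∀ Y ∈ A, X ∪ Y = q → X = q ∨ Y = q)

open scoped Classical in
/-- The union-irreducible members of `A` which meet another union-irreducible member of `A`. -/
noncomputable def linked {α : Type*} [DecidableEq α] (A : Finset (Finset α)) :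
    Finset (Finset α) :=
  (irr A).filter (fun p => ∃ q ∈ irr A, q ≠ p ∧ ¬ Disjoint p q)

/-- Let `A` be a separating finite union-closed family which is not a power set, let `g₁` be the
number of its union-irreducible members which meet another one and `g₀` the number of the others. If
`|A ∪ {∅}| ^ 4 ≥ 12 ^ g₁ 16 ^ g₀`, then some element lies in strictly more than half of the members
of `A`. -/
theorem result {α : Type*} [DecidableEq α] (A : Finset (Finset α)) (hne : A.Nonempty)
    (hunion : ∀ X ∈ A, ∀ Y ∈ A, X ∪ Y ∈ A)
    (hsep : ∀ x ∈ A.sup id, ∀ y ∈ A.sup id, x ≠ y →
      ∃ S ∈ A, (x ∈ S ∧ y ∉ S) ∨ (y ∈ S ∧ x ∉ S))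
    (hpow : A ≠ (A.sup id).powerset)
    (hm : 12 ^ (linked A).card * 16 ^ (irr A \ linked A).card ≤ (insert ∅ A).card ^ 4) :
    ∃ x ∈ A.sup id, A.card < 2 * (A.filter (fun S => x ∈ S)).card := by
  classical
  by_contra hcon
  push Not at hcon
  have hmem : ∀ x, x ∈ A.sup id ↔ ∃ S ∈ A, x ∈ S := by
    intro x
    rw [mem_sup]
    rfl
  have H0 : ∀ x, 2 * (A.filter (fun S => x ∈ S)).card ≤ A.card := by
    intro x
    by_cases hx : x ∈ A.sup id
    · exact hcon x hx
    · have : A.filter (fun S => x ∈ S) = ∅ := by
        rw [filter_eq_empty_iff]
        intro S hS hxS
        exact hx ((hmem x).2 ⟨S, hS, hxS⟩)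
      rw [this]
      simp
  have H : ∀ x, 2 * (A.filter (fun S => x ∈ S)).card ≤ (insert ∅ A).card := fun x =>
    (H0 x).trans (card_le_card (subset_insert _ _))
  rcases (linked A).eq_empty_or_nonempty with h0 | h1
  · -- the irreducible members are pairwise disjoint
    have hdis : ∀ p ∈ irr A, ∀ q ∈ irr A, q ≠ p → Disjoint p q := by
      intro p hp q hq hqp
      by_contra hd
      have : p ∈ linked A := by
        unfold linked
        rw [mem_filter]
        exact ⟨hp, q, hq, hqp, hd⟩
      rw [h0] at this
      exact notMem_empty p this
    have hgen : ∀ S ∈ A, ∀ x ∈ S, ∃ q ∈ irr A, x ∈ q ∧ q ⊆ S := by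
      intro S hS x hx
      obtain ⟨q, hq, hq', hxq, hqS⟩ := Pool.Agent.N435.irr_gen A S hS x hx
      exact ⟨q, by unfold irr; rw [mem_filter]; exact ⟨hq, hq'⟩, hxq, hqS⟩
    have hirrA : irr A ⊆ A := by
      unfold irr
      exact filter_subset _ _
    have hsing : ∀ x ∈ A.sup id, {x} ∈ A := by
      intro x hx
      obtain ⟨S, hS, hxS⟩ := (hmem x).1 hx
      obtain ⟨q, hq, hxq, hqS⟩ := hgen S hS x hxS
      have : q = {x} := by
        apply eq_singleton_iff_unique_mem.2
        refine ⟨hxq, fun y hyq => ?_⟩
        by_contra hyx
        have key : ∀ a ∈ q, ∀ b ∈ q, ∀ T ∈ A, a ∈ T → b ∈ T := by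
          intro a ha b hb T hT haT
          obtain ⟨q', hq', haq', hq'T⟩ := hgen T hT a haT
          have : q' = q := by
            by_contra hqq
            exact Finset.disjoint_left.1 (hdis q hq q' hq' hqq) ha haq'
          rw [this] at hq'T
          exact hq'T hb
        obtain ⟨T, hT, h⟩ := hsep y ((hmem y).2 ⟨q, hirrA hq, hyq⟩) x hx hyx
        rcases h with ⟨h1, h2⟩ | ⟨h1, h2⟩
        · exact h2 (key y hyq x hxq T hT h1)
        · exact h2 (key x hxq y hyq T hT h1)
      rw [← this]
      exact hirrA hq
    have hall : ∀ S : Finset α, S ⊆ A.sup id → S.Nonempty → S ∈ A := by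
      intro S
      induction S using Finset.induction_on with
      | empty => intro _ h; exact absurd h (by simp)
      | insert a S ha ih =>
        intro hS _
        have ha' := hsing a (hS (mem_insert_self a S))
        rcases S.eq_empty_or_nonempty with h | h
        · rw [h]
          exact ha'
        · rw [insert_eq]
          exact hunion _ ha' _ (ih ((subset_insert _ _).trans hS) h)
    have hem : ∅ ∉ A := by
      intro he
      apply hpow
      ext S
      rw [mem_powerset]
      constructor
      · intro hS
        exact Finset.le_sup (f := id) hS
      · intro hS
        rcases S.eq_empty_or_nonempty with h | h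
        · rw [h]
          exact he
        · exact hall S hS h
    obtain ⟨S, hS⟩ := hne
    have hSne : S.Nonempty := by
      rw [nonempty_iff_ne_empty]
      rintro rfl
      exact hem hS
    obtain ⟨x, hxS⟩ := hSne
    have hx := hsing x ((hmem x).2 ⟨S, hS, hxS⟩)
    have hinj : ((insert ∅ A).filter (fun T => ¬ x ∈ T)).card ≤
        (A.filter (fun T => x ∈ T)).card := by
      apply card_le_card_of_injOn (fun T => insert x T)
      · intro T hT
        rw [mem_coe, mem_filter] at hT
        rw [mem_coe, mem_filter]
        refine ⟨?_, mem_insert_self _ _⟩
        show insert x T ∈ A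
        rw [insert_eq]
        rcases mem_insert.1 hT.1 with h | h
        · rw [h, union_empty]
          exact hx
        · exact hunion _ hx _ h
      · intro T hT T' hT' h
        rw [mem_coe, mem_filter] at hT hT'
        have h' : (insert x T).erase x = (insert x T').erase x := by
          simp only at h
          rw [h]
        rwa [erase_insert hT.2, erase_insert hT'.2] at h'
    have hc := card_filter_add_card_filter_not (s := insert ∅ A) (fun T => x ∈ T)
    rw [Pool.Agent.N435.filter_insert_empty] at hc
    have h2 := H0 x
    have h3 : (insert ∅ A).card = A.card + 1 := card_insert_of_notMem hem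
    omega
  · obtain ⟨p, hp, hp', -⟩ := Pool.Agent.N435.One.dense_irr12 A (irr A) (linked A) hunion rfl
      (by
        intro p hp
        unfold Pool.Agent.N435.nonisol at hp
        unfold linked
        convert hp using 2)
      (by unfold linked; exact filter_subset _ _) h1 hm H
    unfold linked at hp
    rw [mem_filter] at hp
    obtain ⟨-, q, hq, hqp, hd⟩ := hp
    exact hd (hp' q hq hqp)

end Pool.Agent.Results.MP_75f39d_co.ExponentialDensity
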